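import Mathlib

set_option autoImplicit false

open MeasureTheory Set Filter Topology
open scoped ENNReal

namespace Pool.Agent.Lib.MP_c0175c_an

/-- Uniform smallness of a vector measure on a decreasing sequence of sets whose intersection
carries no mass. -/
theorem small_of_antitone {α E : Type*} [MeasurableSpace α] [NormedAddCommGroup E]
    (v : VectorMeasure α E) (G : ℕ → Set α) (hG : ∀ k, MeasurableSet (G k)) (hanti : Antitone G)
    (h0 : ∀ A, MeasurableSet A → A ⊆ ⋂ k, G k → v A = 0) {ε : ℝ} (hε : 0 < ε) :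
    ∃ k, ∀ A, MeasurableSet A → A ⊆ G k → ‖v A‖ ≤ ε := by
  by_contra hcon
  push Not at hcon
  choose A hAm hAG hA using hcon
  have key : ∀ k, ∃ m, k < m ∧ ε / 2 < ‖v (A k \ G m)‖ := by
    intro k
    have h1 : Tendsto (fun m => v (A k ∩ G m)) atTop (𝓝 (v (⋂ m, A k ∩ G m))) := by
      apply VectorMeasure.tendsto_vectorMeasure_iInter_atTop_nat
      · intro a b hab
        exact inter_subset_inter_right _ (hanti hab)
      · intro m
        exact (hAm k).inter (hG m)
    have h2 : v (⋂ m, A k ∩ G m) = 0 := by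
      apply h0
      · exact MeasurableSet.iInter fun m => (hAm k).inter (hG m)
      · exact iInter_mono fun m => inter_subset_right
    rw [h2] at h1
    have h3 : ∀ᶠ m in atTop, ‖v (A k ∩ G m)‖ < ε / 2 := by
      have := (tendsto_zero_iff_norm_tendsto_zero.1 h1)
      exact (tendsto_order.1 this).2 _ (by linarith)
    obtain ⟨m, hm1, hm2⟩ := (h3.and (eventually_gt_atTop k)).exists
    refine ⟨m, hm2, ?_⟩
    have h4 : v (A k) = v (A k ∩ G m) + v (A k \ G m) := by
      rw [← VectorMeasure.of_union (disjoint_sdiff_right.mono_left inter_subset_right)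
        ((hAm k).inter (hG m)) ((hAm k).diff (hG m)), inter_union_sdiff]
    have h5 := norm_add_le (v (A k ∩ G m)) (v (A k \ G m))
    rw [← h4] at h5
    have := hA k
    linarith
  choose φ hφ1 hφ2 using key
  let s : ℕ → ℕ := fun i => φ^[i] 0
  have hs : ∀ i, s (i + 1) = φ (s i) := fun i => Function.iterate_succ_apply' φ i 0
  have hsm : StrictMono s := strictMono_nat_of_lt_succ fun i => by rw [hs]; exact hφ1 _
  let B : ℕ → Set α := fun i => A (s i) \ G (s (i + 1))
  have hBm : ∀ i, MeasurableSet (B i) := fun i => (hAm _).diff (hG _)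
  have hBd : Pairwise (Function.onFun Disjoint B) := by
    apply (pairwise_disjoint_on _).2
    intro i j hij
    have h1 : Disjoint (B i) (G (s (i + 1))) := disjoint_sdiff_left
    apply h1.mono_right
    calc B j ⊆ A (s j) := sdiff_subset
      _ ⊆ G (s j) := hAG _
      _ ⊆ G (s (i + 1)) := hanti (hsm.monotone hij)
  have hsum := (v.hasSum_of_disjoint_iUnion hBm hBd).summable.tendsto_atTop_zero
  have h3 : ∀ᶠ i in atTop, ‖v (B i)‖ < ε / 2 :=
    (tendsto_order.1 (tendsto_zero_iff_norm_tendsto_zero.1 hsum)).2 _ (by linarith)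
  obtain ⟨i, hi⟩ := h3.exists
  have := hφ2 (s i)
  rw [← hs] at this
  exact absurd hi (not_lt.2 this.le)

/-- The epsilon-delta form of absolute continuity for a vector measure. -/
theorem eps_delta {α E : Type*} [MeasurableSpace α] [NormedAddCommGroup E]
    (v : VectorMeasure α E) (μ : Measure α)
    (h0 : ∀ A, MeasurableSet A → μ A = 0 → v A = 0) {ε : ℝ} (hε : 0 < ε) :
    ∃ δ : ℝ≥0∞, 0 < δ ∧ ∀ A, MeasurableSet A → μ A < δ → ‖v A‖ ≤ ε := by
  by_contra hcon
  push Not at hcon
  obtain ⟨d, hd0, hd⟩ := ENNReal.exists_pos_sum_of_countable' (ε := 1) one_ne_zero ℕ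
  choose A hAm hAμ hA using fun k => hcon (d k) (hd0 k)
  let G : ℕ → Set α := fun k => ⋃ j ≥ k, A j
  have hGm : ∀ k, MeasurableSet (G k) := fun k =>
    MeasurableSet.iUnion fun j => MeasurableSet.iUnion fun _ => hAm j
  have hanti : Antitone G := by
    intro a b hab x hx
    simp only [G, mem_iUnion] at hx ⊢
    obtain ⟨j, hj, hx⟩ := hx
    exact ⟨j, le_trans hab hj, hx⟩
  have hlim : μ (⋂ k, G k) = 0 := by
    have h1 : ∑' k, μ (A k) ≠ ∞ := by
      apply ne_top_of_le_ne_top (b := 1) ENNReal.one_ne_top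
      exact le_trans (ENNReal.tsum_le_tsum fun k => (hAμ k).le) hd.le
    have h2 := measure_limsup_atTop_eq_zero h1
    rw [limsup_eq_iInf_iSup_of_nat] at h2
    simpa [G] using h2
  obtain ⟨k, hk⟩ := small_of_antitone v G hGm hanti
    (fun B hB hBG => h0 B hB (measure_mono_null hBG hlim)) hε
  have := hk (A k) (hAm k) (fun x hx => by
    simp only [G, mem_iUnion]
    exact ⟨k, le_rfl, hx⟩)
  exact absurd (hA k) (not_lt.2 this)

/-- The sign attached to a Boolean. -/
def sg (b : Bool) : ℝ := if b then 1 else -1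

theorem sg_mul_self (b : Bool) : sg b * sg b = 1 := by cases b <;> simp [sg]

theorem abs_sg (b : Bool) : |sg b| = 1 := by cases b <;> simp [sg]

/-- Greedy choice of signs in an inner product space. -/
theorem exists_signs {H : Type*} [NormedAddCommGroup H] [InnerProductSpace ℝ H]
    (u : ℕ → H) (N : ℕ) :
    ∃ s : ℕ → Bool, ‖∑ j ∈ Finset.range N, sg (s j) • u j‖ ^ 2 ≤
      ∑ j ∈ Finset.range N, ‖u j‖ ^ 2 := by
  induction N with
  | zero => exact ⟨fun _ => true, by simp⟩
  | succ N ih =>
    obtain ⟨s, hs⟩ := ih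
    set S := ∑ j ∈ Finset.range N, sg (s j) • u j with hS
    have key : ∀ b : Bool, ∑ j ∈ Finset.range (N + 1), sg (Function.update s N b j) • u j
        = S + sg b • u N := by
      intro b
      rw [Finset.sum_range_succ, Function.update_self, hS]
      congr 1
      apply Finset.sum_congr rfl
      intro j hj
      rw [Function.update_of_ne (Finset.mem_range.1 hj).ne]
    by_cases h : inner ℝ S (u N) ≤ 0
    · refine ⟨Function.update s N true, ?_⟩
      rw [key, Finset.sum_range_succ]
      simp only [sg, if_true, one_smul]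
      rw [norm_add_sq_real]
      linarith
    · refine ⟨Function.update s N false, ?_⟩
      rw [key, Finset.sum_range_succ]
      simp only [sg, Bool.false_eq_true, if_false, neg_smul, one_smul]
      rw [← sub_eq_add_neg, norm_sub_sq_real]
      linarith

/-- A family of signed measures that is uniformly bounded and dominated by a vector measure
cannot realise all sign patterns on long blocks. -/
theorem no_sign_patterns {α E : Type*} [MeasurableSpace α] [NormedAddCommGroup E]
    [NormedSpace ℝ E] (v : VectorMeasure α E) (s : ℕ → SignedMeasure α)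
    (hle : ∀ n A, |s n A| ≤ ‖v A‖)
    (hzero : ∀ A, (∀ n, s n A = 0) → v A = 0)
    (hpat : ∀ (N : ℕ) (b : ℕ → Bool), ∃ A, ∀ j < N, s (N + j) A = sg (b j)) : False := by
  -- control measure
  obtain ⟨μ, hμfin, hac, -⟩ :=
    exists_isFiniteMeasure_absolutelyContinuous (Measure.sum fun n => (s n).totalVariation)
  have hs0 : ∀ n A, MeasurableSet A → μ A = 0 → s n A = 0 := by
    intro n A hA h
    have h1 : (Measure.sum fun n => (s n).totalVariation) A = 0 := hac h
    have h2 : (s n).totalVariation A = 0 :=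
      le_antisymm (le_trans (Measure.le_sum (fun n => (s n).totalVariation) n A) h1.le) bot_le
    have h3 := (s n).norm_le_totalVariation A
    rw [measureReal_def, h2] at h3
    simpa using h3
  have hv0 : ∀ A, MeasurableSet A → μ A = 0 → v A = 0 :=
    fun A hA h => hzero A fun n => hs0 n A hA h
  obtain ⟨δ, hδ0, hδ⟩ := eps_delta v μ hv0 (ε := 1 / 2) (by norm_num)
  -- densities
  let f : ℕ → α → ℝ := fun n => (s n).rnDeriv μ
  have hfm : ∀ n, Measurable (f n) := fun n => SignedMeasure.measurable_rnDeriv _ _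
  have hfi : ∀ n, Integrable (f n) μ := fun n => SignedMeasure.integrable_rnDeriv _ _
  have hfs : ∀ n A, MeasurableSet A → ∫ x in A, f n x ∂μ = s n A := by
    intro n A hA
    have h1 : s n ≪ᵥ μ.toENNRealVectorMeasure := by
      apply VectorMeasure.AbsolutelyContinuous.mk
      intro B hB h
      rw [Measure.toENNRealVectorMeasure_apply_measurable hB] at h
      exact hs0 n B hB h
    have h2 := SignedMeasure.withDensityᵥ_rnDeriv_eq (s n) μ h1
    rw [← withDensityᵥ_apply (hfi n) hA, h2]
  set C : ℝ := (v.bound : ℝ) with hC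
  have hC0 : 0 ≤ C := NNReal.coe_nonneg _
  have hsC : ∀ n A, |s n A| ≤ C := fun n A => (hle n A).trans VectorMeasure.norm_apply_le_bound
  have hL1 : ∀ n, ∫ x, |f n x| ∂μ ≤ 2 * C := by
    intro n
    have hP : MeasurableSet {x | 0 ≤ f n x} := measurableSet_le measurable_const (hfm n)
    rw [← integral_add_compl hP (hfi n).abs]
    have h1 : ∫ x in {x | 0 ≤ f n x}, |f n x| ∂μ = ∫ x in {x | 0 ≤ f n x}, f n x ∂μ :=
      setIntegral_congr_fun hP fun x hx => abs_of_nonneg hx
    have h2 : ∫ x in {x | 0 ≤ f n x}ᶜ, |f n x| ∂μ = - ∫ x in {x | 0 ≤ f n x}ᶜ, f n x ∂μ := by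
      rw [← integral_neg]
      exact setIntegral_congr_fun hP.compl fun x hx => abs_of_neg (not_le.1 hx)
    rw [h1, h2, hfs n _ hP, hfs n _ hP.compl]
    have h3 := abs_le.1 (hsC n {x | 0 ≤ f n x})
    have h4 := abs_le.1 (hsC n {x | 0 ≤ f n x}ᶜ)
    linarith [h3.2, h4.1]
  -- truncation level
  obtain ⟨M, hM0, hM⟩ : ∃ M : ℝ, 0 < M ∧ ∀ n, μ {x | M ≤ |f n x|} < δ := by
    obtain ⟨d, hd0, hd⟩ : ∃ d : ℝ, 0 < d ∧ ENNReal.ofReal d < δ := by
      obtain ⟨r, hr0, hr⟩ := ENNReal.lt_iff_exists_nnreal_btwn.1 hδ0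
      refine ⟨r, by exact_mod_cast hr0, by simpa using hr⟩
    refine ⟨(2 * C + 1) / d, by positivity, fun n => ?_⟩
    have h1 := mul_meas_ge_le_integral_of_nonneg (μ := μ) (f := fun x => |f n x|)
      (Eventually.of_forall fun x => abs_nonneg _) (hfi n).abs ((2 * C + 1) / d)
    have h2 : μ.real {x | (2 * C + 1) / d ≤ |f n x|} ≤ d := by
      have h3 := h1.trans (hL1 n)
      rw [div_mul_eq_mul_div, div_le_iff₀ hd0] at h3
      by_contra h4
      push Not at h4
      nlinarith
    refine lt_of_le_of_lt ?_ hd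
    rw [← ofReal_measureReal (measure_ne_top _ _)]
    exact ENNReal.ofReal_le_ofReal h2
  let B : ℕ → Set α := fun n => {x | M ≤ |f n x|}
  have hBm : ∀ n, MeasurableSet (B n) := fun n => measurableSet_le measurable_const (hfm n).abs
  let g : ℕ → α → ℝ := fun n => (B n)ᶜ.indicator (f n)
  have hgm : ∀ n, Measurable (g n) := fun n => (hfm n).indicator (hBm n).compl
  have hgM : ∀ n x, ‖g n x‖ ≤ M := by
    intro n x
    by_cases hx : x ∈ (B n)ᶜ
    · simp only [g, indicator_of_mem hx, Real.norm_eq_abs]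
      have hx' : ¬ M ≤ |f n x| := hx
      exact (not_le.1 hx').le
    · simp only [g, indicator_of_notMem hx, norm_zero]
      exact hM0.le
  have hg2 : ∀ n, MemLp (g n) 2 μ := fun n =>
    MemLp.of_bound (hgm n).aestronglyMeasurable M (Eventually.of_forall (hgM n))
  let u : ℕ → Lp ℝ 2 μ := fun n => (hg2 n).toLp (g n)
  set R : ℝ := (measureUnivNNReal μ : ℝ) ^ (2 : ℝ≥0∞).toReal⁻¹ with hR
  have hR0 : 0 ≤ R := by positivity
  have huR : ∀ n, ‖u n‖ ≤ R * M := by
    intro n
    apply Lp.norm_le_of_ae_bound hM0.le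
    filter_upwards [(hg2 n).coeFn_toLp] with x hx
    rw [hx]
    exact hgM n x
  obtain ⟨N, hN⟩ := exists_nat_gt (4 * R ^ 2 * (R * M) ^ 2)
  have hN0 : (0 : ℝ) < N := lt_of_le_of_lt (by positivity) hN
  obtain ⟨b, hb⟩ := exists_signs (fun j => u (N + j)) N
  obtain ⟨A, hA⟩ := hpat N b
  have hAm : MeasurableSet A := by
    by_contra h
    have h1 := hA 0 (by exact_mod_cast hN0)
    rw [(s _).not_measurable h] at h1
    have := abs_sg (b 0)
    rw [← h1] at this
    simp at this
  let w : Lp ℝ 2 μ := indicatorConstLp 2 hAm (measure_ne_top μ A) (1 : ℝ)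
  have hw : ‖w‖ ≤ R * 1 := by
    apply Lp.norm_le_of_ae_bound zero_le_one
    filter_upwards [indicatorConstLp_coeFn (p := 2) (hs := hAm) (hμs := measure_ne_top μ A)
      (c := (1 : ℝ))] with x hx
    rw [hx]
    by_cases h : x ∈ A <;> simp [h]
  have hinner : ∀ n, inner ℝ w (u n) = s n A - s n (A ∩ B n) := by
    intro n
    rw [L2.inner_indicatorConstLp_one]
    have h1 : ∫ x in A, u n x ∂μ = ∫ x in A, g n x ∂μ :=
      integral_congr_ae (ae_restrict_of_ae (hg2 n).coeFn_toLp)
    rw [h1, setIntegral_indicator (hBm n).compl, hfs n _ (hAm.inter (hBm n).compl)]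
    have h4 : s n A = s n (A ∩ B n) + s n (A ∩ (B n)ᶜ) := by
      rw [← VectorMeasure.of_union (disjoint_compl_right.mono inter_subset_right
        inter_subset_right) (hAm.inter (hBm n)) (hAm.inter (hBm n).compl), inter_union_compl]
    linarith
  have hsmall : ∀ n, |s n (A ∩ B n)| ≤ 1 / 2 := fun n =>
    (hle n _).trans (hδ _ (hAm.inter (hBm n))
      (lt_of_le_of_lt (measure_mono inter_subset_right) (hM n)))
  set S := ∑ j ∈ Finset.range N, sg (b j) • u (N + j) with hS
  have hlow : (N : ℝ) / 2 ≤ inner ℝ w S := by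
    rw [hS, inner_sum]
    have : ∀ j ∈ Finset.range N, (1 / 2 : ℝ) ≤ inner ℝ w (sg (b j) • u (N + j)) := by
      intro j hj
      rw [inner_smul_right, hinner, hA j (Finset.mem_range.1 hj), mul_sub, sg_mul_self]
      have h1 : |sg (b j) * s (N + j) (A ∩ B (N + j))| ≤ 1 / 2 := by
        rw [abs_mul, abs_sg, one_mul]
        exact hsmall _
      linarith [(abs_le.1 h1).2]
    have h2 := Finset.sum_le_sum this
    simp only [Finset.sum_const, Finset.card_range, nsmul_eq_mul] at h2
    linarith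
  have hS2 : ‖S‖ ^ 2 ≤ N * (R * M) ^ 2 := by
    refine hb.trans ?_
    have : ∀ j ∈ Finset.range N, ‖u (N + j)‖ ^ 2 ≤ (R * M) ^ 2 := fun j _ =>
      pow_le_pow_left₀ (norm_nonneg _) (huR _) 2
    have h2 := Finset.sum_le_sum this
    simpa using h2
  have h1 : inner ℝ w S ≤ R * ‖S‖ := by
    refine (real_inner_le_norm w S).trans ?_
    rw [mul_one] at hw
    exact mul_le_mul_of_nonneg_right hw (norm_nonneg _)
  have h2 : ((N : ℝ) / 2) ^ 2 ≤ (R * ‖S‖) ^ 2 :=
    pow_le_pow_left₀ (by positivity) (hlow.trans h1) 2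
  have h3 : (R * ‖S‖) ^ 2 ≤ R ^ 2 * (N * (R * M) ^ 2) := by
    rw [mul_pow]
    exact mul_le_mul_of_nonneg_left hS2 (by positivity)
  nlinarith

end Pool.Agent.Lib.MP_c0175c_an
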